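import Mathlib

set_option autoImplicit false

open Set Filter Topology OnePoint

namespace Pool.Agent.Results.MP_d12f8b_an.HeightNotPreserved

noncomputable section

/-- The Cantor-Bendixson derivatives of a topological space: `K^(0) = K`, `K^(α+1)` is the set of
accumulation points of `K^(α)`, and intersections are taken at limit ordinals. -/
def cbDeriv (K : Type) [TopologicalSpace K] (α : Ordinal.{0}) : Set K :=
  Ordinal.limitRecOn α univ (fun _ A => derivedSet A) (fun β _ ih => ⋂ γ : Set.Iio β, ih γ.1 γ.2)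

/-- The height: the least ordinal `α` with `K^(α)` empty. -/
def height (K : Type) [TopologicalSpace K] : Ordinal.{0} := sInf {α | cbDeriv K α = ∅}

/-- The interval `[0, ω]`. -/
abbrev KA : Type := OnePoint (ℕ ⊕ ℕ × ℕ)

/-- The interval `[0, ω ^ 2]`. -/
abbrev KB : Type := OnePoint (ℕ × OnePoint ℕ)

/-! ### Heights -/

lemma cb_zero (K : Type) [TopologicalSpace K] : cbDeriv K 0 = univ := by
  unfold cbDeriv; rw [Ordinal.limitRecOn_zero]

lemma cb_succ (K : Type) [TopologicalSpace K] (α : Ordinal.{0}) :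
    cbDeriv K (α + 1) = derivedSet (cbDeriv K α) := by
  unfold cbDeriv; rw [Ordinal.limitRecOn_add_one]

lemma cb_one (K : Type) [TopologicalSpace K] : cbDeriv K 1 = derivedSet univ := by
  have := cb_succ K 0
  rwa [zero_add, cb_zero] at this

lemma cb_two (K : Type) [TopologicalSpace K] : cbDeriv K 2 = derivedSet (derivedSet univ) := by
  have := cb_succ K 1
  rwa [one_add_one_eq_two, cb_one] at this

lemma cb_three (K : Type) [TopologicalSpace K] :
    cbDeriv K 3 = derivedSet (derivedSet (derivedSet univ)) := by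
  have := cb_succ K 2
  rwa [two_add_one_eq_three, cb_two] at this

lemma derived_singleton {X : Type} [TopologicalSpace X] [T1Space X] (a : X) :
    derivedSet ({a} : Set X) = ∅ := by
  rw [eq_empty_iff_forall_notMem]
  intro x hx
  rw [mem_derivedSet, accPt_iff_nhds] at hx
  by_cases h : x = a
  · subst h
    obtain ⟨y, hy, hne⟩ := hx univ univ_mem
    exact hne hy.2
  · obtain ⟨y, hy, hne⟩ := hx {a}ᶜ (isClosed_singleton.isOpen_compl.mem_nhds h)
    exact hy.1 hy.2

lemma not_acc_of_isOpen {X : Type} [TopologicalSpace X] {A : Set X} {x : X}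
    (h : IsOpen ({x} : Set X)) : x ∉ derivedSet A := by
  intro hx
  rw [mem_derivedSet, accPt_iff_nhds] at hx
  obtain ⟨y, hy, hne⟩ := hx {x} (h.mem_nhds rfl)
  exact hne hy.1

lemma KA_one : derivedSet (univ : Set KA) = {∞} := by
  ext x
  constructor
  · intro hx
    induction x using OnePoint.rec with
    | infty => rfl
    | coe x =>
      exfalso
      refine not_acc_of_isOpen ?_ hx
      have := OnePoint.isOpenEmbedding_coe (X := ℕ ⊕ ℕ × ℕ) |>.isOpenMap _ (isOpen_discrete {x})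
      simpa using this
  · rintro rfl
    rw [mem_derivedSet, accPt_iff_nhds]
    intro U hU
    rw [mem_nhds_iff] at hU
    obtain ⟨V, hVU, hV, hVm⟩ := hU
    have hc := ((OnePoint.isOpen_iff_of_mem hVm).1 hV).2
    have hfin := isCompact_iff_finite.1 hc
    obtain ⟨y, hy⟩ := (hfin.infinite_compl).nonempty
    simp only [compl_compl] at hy
    exact ⟨y, ⟨hVU hy, mem_univ _⟩, OnePoint.coe_ne_infty y⟩

lemma KB_isolated (n m : ℕ) : IsOpen ({((n, (m : OnePoint ℕ)) : KB)} : Set KB) := by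
  have h1 : IsOpen ({(m : OnePoint ℕ)} : Set (OnePoint ℕ)) := by
    have := OnePoint.isOpenEmbedding_coe (X := ℕ) |>.isOpenMap _ (isOpen_discrete {m})
    simpa using this
  have h2 : IsOpen (({n} : Set ℕ) ×ˢ ({(m : OnePoint ℕ)} : Set (OnePoint ℕ))) :=
    (isOpen_discrete _).prod h1
  have := OnePoint.isOpenEmbedding_coe (X := ℕ × OnePoint ℕ) |>.isOpenMap _ h2
  simpa using this

lemma KB_acc_coe (n : ℕ) : ((n, (∞ : OnePoint ℕ)) : KB) ∈ derivedSet (univ : Set KB) := by
  rw [mem_derivedSet, accPt_iff_nhds]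
  intro U hU
  rw [OnePoint.nhds_coe_eq, mem_map, nhds_prod_eq, nhds_discrete, mem_prod_iff] at hU
  obtain ⟨A, hA, B, hB, hAB⟩ := hU
  rw [mem_nhds_iff] at hB
  obtain ⟨V, hVU, hV, hVm⟩ := hB
  have hc := ((OnePoint.isOpen_iff_of_mem hVm).1 hV).2
  have hfin := isCompact_iff_finite.1 hc
  obtain ⟨m, hm⟩ := (hfin.infinite_compl).nonempty
  simp only [compl_compl] at hm
  refine ⟨((n, (m : OnePoint ℕ)) : KB), ⟨hAB ⟨hA, hVU hm⟩, mem_univ _⟩, ?_⟩
  intro h
  have := OnePoint.coe_injective h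
  have := (Prod.ext_iff.1 this).2
  exact OnePoint.coe_ne_infty m this

/-- The projection of a compact set is bounded. -/
lemma exists_bound (t : Set (ℕ × OnePoint ℕ)) (ht : IsCompact t) : ∃ N, ∀ p ∈ t, p.1 < N := by
  have h := (ht.image continuous_fst)
  have hfin := isCompact_iff_finite.1 h
  obtain ⟨N, hN⟩ := hfin.bddAbove
  exact ⟨N + 1, fun p hp => Nat.lt_succ_of_le (hN ⟨p, hp, rfl⟩)⟩

lemma KB_nhds_infty {U : Set KB} (hU : U ∈ 𝓝 (∞ : KB)) :
    ∃ N, ∀ p : ℕ × OnePoint ℕ, N ≤ p.1 → (p : KB) ∈ U := by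
  rw [mem_nhds_iff] at hU
  obtain ⟨V, hVU, hV, hVm⟩ := hU
  have hc := ((OnePoint.isOpen_iff_of_mem hVm).1 hV).2
  obtain ⟨N, hN⟩ := exists_bound _ hc
  refine ⟨N, fun p hp => hVU ?_⟩
  by_contra h
  have := hN p h
  omega

lemma KB_one : derivedSet (univ : Set KB) = insert ∞ (range fun n : ℕ => ((n, (∞ : OnePoint ℕ)) : KB)) := by
  ext x
  constructor
  · intro hx
    induction x using OnePoint.rec with
    | infty => exact Or.inl rfl
    | coe x =>
      right
      obtain ⟨n, y⟩ := x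
      induction y using OnePoint.rec with
      | infty => exact ⟨n, rfl⟩
      | coe m => exact absurd hx (not_acc_of_isOpen (KB_isolated n m))
  · rintro (rfl | ⟨n, rfl⟩)
    · rw [mem_derivedSet, accPt_iff_nhds]
      intro U hU
      obtain ⟨N, hN⟩ := KB_nhds_infty hU
      exact ⟨((N, (∞ : OnePoint ℕ)) : KB), ⟨hN _ le_rfl, mem_univ _⟩, OnePoint.coe_ne_infty _⟩
    · exact KB_acc_coe n

lemma KB_two : derivedSet (derivedSet (univ : Set KB)) = {∞} := by
  ext x
  constructor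
  · intro hx
    induction x using OnePoint.rec with
    | infty => rfl
    | coe x =>
      exfalso
      obtain ⟨n, y⟩ := x
      rw [mem_derivedSet, accPt_iff_nhds] at hx
      have hopen : IsOpen ((fun p : ℕ × OnePoint ℕ => (p : KB)) '' (({n} : Set ℕ) ×ˢ univ)) :=
        OnePoint.isOpenEmbedding_coe.isOpenMap _ ((isOpen_discrete _).prod isOpen_univ)
      have hmem : ((n, y) : KB) ∈ ((fun p : ℕ × OnePoint ℕ => (p : KB)) '' (({n} : Set ℕ) ×ˢ univ)) :=
        ⟨(n, y), ⟨rfl, mem_univ _⟩, rfl⟩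
      have hy : y = ∞ := by
        by_contra hne
        induction y using OnePoint.rec with
        | infty => exact hne rfl
        | coe m =>
          obtain ⟨z, hz, hz'⟩ := hx _ ((KB_isolated n m).mem_nhds rfl)
          exact hz' hz.1
      subst hy
      obtain ⟨z, ⟨⟨p, hp, rfl⟩, hz2⟩, hz3⟩ := hx _ (hopen.mem_nhds hmem)
      rw [KB_one] at hz2
      rcases hz2 with h | ⟨k, h⟩
      · exact OnePoint.coe_ne_infty _ h
      · have h' := OnePoint.coe_injective h
        apply hz3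
        have h1 : p.1 = n := hp.1
        have h2 : p = (n, (∞ : OnePoint ℕ)) := by
          rw [← h'] at h1 ⊢
          simp only at h1
          rw [h1]
        change (p : KB) = _
        rw [h2]
  · rintro rfl
    rw [mem_derivedSet, accPt_iff_nhds]
    intro U hU
    obtain ⟨N, hN⟩ := KB_nhds_infty hU
    exact ⟨((N, (∞ : OnePoint ℕ)) : KB), ⟨hN _ le_rfl, KB_acc_coe N⟩, OnePoint.coe_ne_infty _⟩

lemma ord_lt_two {a : Ordinal.{0}} (h : a < 2) : a = 0 ∨ a = 1 := by
  rw [← one_add_one_eq_two, ← Order.succ_eq_add_one, Order.lt_succ_iff] at h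
  rcases h.lt_or_eq with h | h
  · left; exact Order.lt_one_iff.1 h
  · right; exact h

lemma height_KA : height KA = 2 := by
  unfold height
  have h2 : cbDeriv KA 2 = ∅ := by rw [cb_two, KA_one, derived_singleton]
  apply le_antisymm (csInf_le' (show (2 : Ordinal.{0}) ∈ {α | cbDeriv KA α = ∅} from h2))
  apply le_csInf ⟨2, h2⟩
  intro b hb
  by_contra hlt
  push Not at hlt
  rcases ord_lt_two hlt with rfl | rfl
  · have : cbDeriv KA 0 = ∅ := hb
    rw [cb_zero] at this
    exact (univ_nonempty (α := KA)).ne_empty this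
  · have : cbDeriv KA 1 = ∅ := hb
    rw [cb_one, KA_one] at this
    exact (singleton_nonempty _).ne_empty this

lemma height_KB : height KB = 3 := by
  unfold height
  have h3 : cbDeriv KB 3 = ∅ := by rw [cb_three, KB_two, derived_singleton]
  apply le_antisymm (csInf_le' (show (3 : Ordinal.{0}) ∈ {α | cbDeriv KB α = ∅} from h3))
  apply le_csInf ⟨3, h3⟩
  intro b hb
  by_contra hlt
  push Not at hlt
  rw [← two_add_one_eq_three, ← Order.succ_eq_add_one, Order.lt_succ_iff] at hlt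
  rcases hlt.lt_or_eq with hlt | rfl
  · rcases ord_lt_two hlt with rfl | rfl
    · have : cbDeriv KB 0 = ∅ := hb
      rw [cb_zero] at this
      exact (univ_nonempty (α := KB)).ne_empty this
    · have : cbDeriv KB 1 = ∅ := hb
      rw [cb_one, KB_one] at this
      exact (insert_nonempty _ _).ne_empty this
  · have : cbDeriv KB 2 = ∅ := hb
    rw [cb_two, KB_two] at this
    exact (singleton_nonempty _).ne_empty this

/-! ### The operator -/

/-- The forward map. -/
def fwd (f : KA → ℝ) : KB → ℝ := fun y => y.elim (f ∞) (fun p => p.2.elim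
  ((f ∞ + f ((Sum.inl p.1 : ℕ ⊕ ℕ × ℕ) : KA)) / 2)
  (fun m => (f ((Sum.inl p.1 : ℕ ⊕ ℕ × ℕ) : KA) + f ((Sum.inr (p.1, m) : ℕ ⊕ ℕ × ℕ) : KA)) / 2))

/-- The backward map. -/
def bwd (g : KB → ℝ) : KA → ℝ := fun x => x.elim (g ∞)
  (Sum.elim (fun n => 2 * g ((n, ∞) : ℕ × OnePoint ℕ) - g ∞)
    (fun p => 2 * g ((p.1, (p.2 : OnePoint ℕ)) : ℕ × OnePoint ℕ) -
      2 * g ((p.1, ∞) : ℕ × OnePoint ℕ) + g ∞))

lemma fwd_infty (f : KA → ℝ) : fwd f ∞ = f ∞ := rfl

lemma fwd_inf (f : KA → ℝ) (n : ℕ) : fwd f ((n, ∞) : ℕ × OnePoint ℕ) =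
    (f ∞ + f ((Sum.inl n : ℕ ⊕ ℕ × ℕ) : KA)) / 2 := rfl

lemma fwd_coe (f : KA → ℝ) (n m : ℕ) : fwd f ((n, (m : OnePoint ℕ)) : ℕ × OnePoint ℕ) =
    (f ((Sum.inl n : ℕ ⊕ ℕ × ℕ) : KA) + f ((Sum.inr (n, m) : ℕ ⊕ ℕ × ℕ) : KA)) / 2 := rfl

lemma bwd_infty (g : KB → ℝ) : bwd g ∞ = g ∞ := rfl

lemma bwd_inl (g : KB → ℝ) (n : ℕ) : bwd g ((Sum.inl n : ℕ ⊕ ℕ × ℕ) : KA) =
    2 * g ((n, ∞) : ℕ × OnePoint ℕ) - g ∞ := rfl

lemma bwd_inr (g : KB → ℝ) (n m : ℕ) : bwd g ((Sum.inr (n, m) : ℕ ⊕ ℕ × ℕ) : KA) =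
    2 * g ((n, (m : OnePoint ℕ)) : ℕ × OnePoint ℕ) -
      2 * g ((n, ∞) : ℕ × OnePoint ℕ) + g ∞ := rfl

lemma continuous_fwd {f : KA → ℝ} (hf : Continuous f) : Continuous (fwd f) := by
  have h0 := (OnePoint.continuous_iff_from_discrete f).1 hf
  rw [OnePoint.continuous_iff]
  constructor
  · rw [Metric.tendsto_nhds]
    intro ε hε
    rw [Metric.tendsto_nhds] at h0
    have hfin : {z : ℕ ⊕ ℕ × ℕ | ¬ dist (f z) (f ∞) < ε}.Finite := h0 ε hε
    obtain ⟨N, hN⟩ := (hfin.image (Sum.elim id Prod.fst)).bddAbove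
    rw [Filter.Eventually, hasBasis_coclosedCompact.mem_iff]
    refine ⟨(Iio (N + 1)) ×ˢ univ, ⟨(isClosed_discrete _).prod isClosed_univ,
      ((Set.finite_Iio _).isCompact).prod isCompact_univ⟩, ?_⟩
    rintro ⟨n, y⟩ hp
    have hn : N + 1 ≤ n := by
      by_contra hlt
      push Not at hlt
      exact hp ⟨hlt, mem_univ _⟩
    have h1 : dist (f ((Sum.inl n : ℕ ⊕ ℕ × ℕ) : KA)) (f ∞) < ε := by
      by_contra h
      have : n ≤ N := hN ⟨Sum.inl n, h, rfl⟩
      omega
    have h2 : ∀ m, dist (f ((Sum.inr (n, m) : ℕ ⊕ ℕ × ℕ) : KA)) (f ∞) < ε := by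
      intro m
      by_contra h
      have : n ≤ N := hN ⟨Sum.inr (n, m), h, rfl⟩
      omega
    change dist (fwd f ((n, y) : ℕ × OnePoint ℕ)) (f ∞) < ε
    rw [Real.dist_eq, abs_lt] at h1 ⊢
    induction y using OnePoint.rec with
    | infty =>
      rw [fwd_inf]
      constructor <;> linarith [h1.1, h1.2]
    | coe m =>
      rw [fwd_coe]
      have h3 := h2 m
      rw [Real.dist_eq, abs_lt] at h3
      constructor <;> linarith [h1.1, h1.2, h3.1, h3.2]
  · rw [continuous_prod_of_discrete_left]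
    intro n
    rw [OnePoint.continuous_iff_from_discrete]
    have hinj : Function.Injective (fun m : ℕ => (Sum.inr (n, m) : ℕ ⊕ ℕ × ℕ)) := by
      intro a b h
      simpa using h
    have h1 := h0.comp hinj.tendsto_cofinite
    have h2 : Tendsto (fun m : ℕ => (f ((Sum.inl n : ℕ ⊕ ℕ × ℕ) : KA) +
        f ((Sum.inr (n, m) : ℕ ⊕ ℕ × ℕ) : KA)) / 2) cofinite
        (𝓝 ((f ((Sum.inl n : ℕ ⊕ ℕ × ℕ) : KA) + f ∞) / 2)) :=
      (tendsto_const_nhds.add h1).div_const 2
    have h3 : fwd f ((n, ∞) : ℕ × OnePoint ℕ) = (f ((Sum.inl n : ℕ ⊕ ℕ × ℕ) : KA) + f ∞) / 2 := by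
      rw [fwd_inf, add_comm]
    rw [h3]
    exact h2

lemma continuous_bwd {g : KB → ℝ} (hg : Continuous g) : Continuous (bwd g) := by
  rw [OnePoint.continuous_iff_from_discrete, Metric.tendsto_nhds]
  intro ε hε
  obtain ⟨N, hN⟩ := KB_nhds_infty (hg.continuousAt.preimage_mem_nhds
    (Metric.ball_mem_nhds (g ∞) (show 0 < ε / 4 by positivity)))
  have hsec : ∀ n : ℕ, Continuous (fun y : OnePoint ℕ => g ((n, y) : ℕ × OnePoint ℕ)) := by
    intro n
    exact hg.comp (OnePoint.continuous_coe.comp (by fun_prop))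
  have hS : ∀ n : ℕ, {m : ℕ | ¬ dist (g ((n, (m : OnePoint ℕ)) : ℕ × OnePoint ℕ))
      (g ((n, ∞) : ℕ × OnePoint ℕ)) < ε / 2}.Finite := by
    intro n
    have h1 := (OnePoint.continuous_iff_from_discrete _).1 (hsec n)
    rw [Metric.tendsto_nhds] at h1
    exact h1 (ε / 2) (by positivity)
  have hfin : ((Sum.inl '' (Iio N) : Set (ℕ ⊕ ℕ × ℕ)) ∪
      Sum.inr '' (⋃ n ∈ Iio N, (fun m => (n, m)) '' {m : ℕ | ¬ dist (g ((n, (m : OnePoint ℕ)) : ℕ × OnePoint ℕ))
      (g ((n, ∞) : ℕ × OnePoint ℕ)) < ε / 2})).Finite := by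
    apply Set.Finite.union
    · exact (Set.finite_Iio N).image _
    · apply Set.Finite.image
      exact (Set.finite_Iio N).biUnion (fun n _ => (hS n).image _)
  apply hfin.subset
  intro z hz
  have hz' : ¬ dist (bwd g z) (g ∞) < ε := hz
  have hball : ∀ p : ℕ × OnePoint ℕ, N ≤ p.1 → |g p - g ∞| < ε / 4 := by
    intro p hp
    have h1 := hN p hp
    rw [mem_preimage, Metric.mem_ball, Real.dist_eq] at h1
    exact h1
  rcases z with n | ⟨n, m⟩
  · left
    refine ⟨n, ?_, rfl⟩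
    by_contra hn
    apply hz'
    have h1 := hball (n, ∞) (by simpa using hn)
    rw [bwd_inl, Real.dist_eq, abs_lt]
    rw [abs_lt] at h1
    constructor <;> linarith [h1.1, h1.2]
  · right
    refine ⟨(n, m), ?_, rfl⟩
    rw [Real.dist_eq, bwd_inr] at hz'
    by_cases hn : n < N
    · rw [mem_iUnion₂]
      refine ⟨n, hn, m, ?_, rfl⟩
      intro h1
      apply hz'
      rw [Real.dist_eq, abs_lt] at h1
      rw [abs_lt]
      constructor <;> linarith [h1.1, h1.2]
    · exfalso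
      apply hz'
      have h1 := hball (n, ∞) (by simpa using hn)
      have h2 := hball (n, (m : OnePoint ℕ)) (by simpa using hn)
      rw [abs_lt] at h1 h2 ⊢
      constructor <;> linarith [h1.1, h1.2, h2.1, h2.2]

lemma bwd_fwd (f : KA → ℝ) : bwd (fwd f) = f := by
  ext x
  induction x using OnePoint.rec with
  | infty => rfl
  | coe z =>
    rcases z with n | ⟨n, m⟩
    · rw [bwd_inl, fwd_inf, fwd_infty]; ring
    · rw [bwd_inr, fwd_coe, fwd_inf, fwd_infty]; ring

lemma fwd_bwd (g : KB → ℝ) : fwd (bwd g) = g := by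
  ext x
  induction x using OnePoint.rec with
  | infty => rfl
  | coe z =>
    obtain ⟨n, y⟩ := z
    induction y using OnePoint.rec with
    | infty => rw [fwd_inf, bwd_infty, bwd_inl]; ring
    | coe m => rw [fwd_coe, bwd_inl, bwd_inr]; ring

/-- The linear isomorphism. -/
def T : C(KA, ℝ) ≃ₗ[ℝ] C(KB, ℝ) where
  toFun f := ⟨fwd f, continuous_fwd f.continuous⟩
  invFun g := ⟨bwd g, continuous_bwd g.continuous⟩
  map_add' f g := by
    ext x
    change fwd (fun x => f x + g x) x = fwd f x + fwd g x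
    induction x using OnePoint.rec with
    | infty => rfl
    | coe z =>
      obtain ⟨n, y⟩ := z
      induction y using OnePoint.rec with
      | infty => simp only [fwd_inf]; ring
      | coe m => simp only [fwd_coe]; ring
  map_smul' c f := by
    ext x
    change fwd (fun x => c * f x) x = c * fwd f x
    induction x using OnePoint.rec with
    | infty => rfl
    | coe z =>
      obtain ⟨n, y⟩ := z
      induction y using OnePoint.rec with
      | infty => simp only [fwd_inf]; ring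
      | coe m => simp only [fwd_coe]; ring
  left_inv f := by
    ext x
    change bwd (fwd f) x = f x
    rw [bwd_fwd]
  right_inv g := by
    ext x
    change fwd (bwd g) x = g x
    rw [fwd_bwd]

lemma T_bound (f : C(KA, ℝ)) : ‖T f‖ ≤ 1 * ‖f‖ := by
  rw [one_mul, ContinuousMap.norm_le _ (norm_nonneg _)]
  intro x
  have hf : ∀ y, |f y| ≤ ‖f‖ := fun y => f.norm_coe_le_norm y
  change |fwd f x| ≤ ‖f‖
  induction x using OnePoint.rec with
  | infty => exact hf _
  | coe z =>
    obtain ⟨n, y⟩ := z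
    induction y using OnePoint.rec with
    | infty =>
      rw [fwd_inf]
      have h1 := abs_le.1 (hf ∞)
      have h2 := abs_le.1 (hf ((Sum.inl n : ℕ ⊕ ℕ × ℕ) : KA))
      rw [abs_le]
      constructor <;> linarith [h1.1, h1.2, h2.1, h2.2]
    | coe m =>
      rw [fwd_coe]
      have h1 := abs_le.1 (hf ((Sum.inr (n, m) : ℕ ⊕ ℕ × ℕ) : KA))
      have h2 := abs_le.1 (hf ((Sum.inl n : ℕ ⊕ ℕ × ℕ) : KA))
      rw [abs_le]
      constructor <;> linarith [h1.1, h1.2, h2.1, h2.2]

lemma T_symm_bound (g : C(KB, ℝ)) : ‖T.symm g‖ ≤ 5 * ‖g‖ := by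
  rw [ContinuousMap.norm_le _ (by positivity)]
  intro x
  have hg : ∀ y, |g y| ≤ ‖g‖ := fun y => g.norm_coe_le_norm y
  have h0 := abs_le.1 (hg ∞)
  change |bwd g x| ≤ 5 * ‖g‖
  induction x using OnePoint.rec with
  | infty =>
    rw [bwd_infty, abs_le]
    constructor <;> linarith [norm_nonneg g, h0.1, h0.2]
  | coe z =>
    rcases z with n | ⟨n, m⟩
    · rw [bwd_inl, abs_le]
      have h1 := abs_le.1 (hg ((n, ∞) : ℕ × OnePoint ℕ))
      constructor <;> linarith [norm_nonneg g, h0.1, h0.2, h1.1, h1.2]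
    · rw [bwd_inr, abs_le]
      have h1 := abs_le.1 (hg ((n, ∞) : ℕ × OnePoint ℕ))
      have h2 := abs_le.1 (hg ((n, (m : OnePoint ℕ)) : ℕ × OnePoint ℕ))
      constructor <;> linarith [norm_nonneg g, h0.1, h0.2, h1.1, h1.2, h2.1, h2.2]

lemma T_mono (f g : C(KA, ℝ)) (h : f ≤ g) : T f ≤ T g := by
  intro x
  have h' : ∀ y, f y ≤ g y := h
  change fwd f x ≤ fwd g x
  induction x using OnePoint.rec with
  | infty => exact h' _
  | coe z =>
    obtain ⟨n, y⟩ := z
    induction y using OnePoint.rec with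
    | infty =>
      rw [fwd_inf, fwd_inf]
      linarith [h' ∞, h' ((Sum.inl n : ℕ ⊕ ℕ × ℕ) : KA)]
    | coe m =>
      rw [fwd_coe, fwd_coe]
      linarith [h' ((Sum.inr (n, m) : ℕ ⊕ ℕ × ℕ) : KA), h' ((Sum.inl n : ℕ ⊕ ℕ × ℕ) : KA)]

/-- There are countable compact Hausdorff spaces `K`, `L` of heights `2` and `3`, and an
order-preserving bi-Lipschitz bijection of `C(K)` onto `C(L)`, which is even a linear map. -/
theorem result :
    ∃ (K L : Type) (_ : TopologicalSpace K) (_ : TopologicalSpace L)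
      (_ : CompactSpace K) (_ : CompactSpace L),
      T2Space K ∧ T2Space L ∧ Countable K ∧ Countable L ∧ height K = 2 ∧ height L = 3 ∧
      ∃ F : C(K, ℝ) →ₗ[ℝ] C(L, ℝ),
        Function.Bijective F ∧ (∀ f g : C(K, ℝ), f ≤ g → F f ≤ F g) ∧
        (∀ f g : C(K, ℝ), ‖F f - F g‖ ≤ ‖f - g‖) ∧
        (∀ f g : C(K, ℝ), ‖f - g‖ ≤ 5 * ‖F f - F g‖) := by
  refine ⟨KA, KB, inferInstance, inferInstance, inferInstance, inferInstance, inferInstance,
    inferInstance, inferInstanceAs (Countable (Option _)),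
    inferInstanceAs (Countable (Option (ℕ × Option ℕ))), height_KA, height_KB,
    (T : C(KA, ℝ) →ₗ[ℝ] C(KB, ℝ)), T.bijective, T_mono, ?_, ?_⟩
  · intro f g
    have := T_bound (f - g)
    rw [one_mul, map_sub] at this
    exact this
  · intro f g
    have := T_symm_bound (T f - T g)
    rw [map_sub, LinearEquiv.symm_apply_apply, LinearEquiv.symm_apply_apply] at this
    exact this

end

end Pool.Agent.Results.MP_d12f8b_an.HeightNotPreserved
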